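import Pool.Agent.Helper79.BPath.Defs
import Pool.Agent.Helper79.BPath.Conical

/-!
# The path counts of an oracle machine (piece A)
-/

namespace Pool.Agent.Helper17.BPath

open Pool.Agent.BPath

section Conical

variable {V : Type} [DecidableEq V]

theorem conical_mono {t t' : ℕ} (h : t ≤ t') {f : Finset V → ℝ} (hf : Conical t f) :
    Conical t' f := by
  obtain ⟨ι, hι, P, Q, r, hr, hP, hQ, hf⟩ := hf
  exact ⟨ι, hι, P, Q, r, hr, fun i => (hP i).trans h, fun i => (hQ i).trans h, hf⟩

theorem conical_const (t : ℕ) {r : ℝ} (hr : 0 ≤ r) : Conical t (fun _ : Finset V => r) :=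
  ⟨Unit, inferInstance, fun _ => ∅, fun _ => ∅, fun _ => r, fun _ => hr, fun _ => by simp,
    fun _ => by simp, fun x => by simp⟩

theorem conical_add {t : ℕ} {f g : Finset V → ℝ} (hf : Conical t f) (hg : Conical t g) :
    Conical t (fun x => f x + g x) := by
  obtain ⟨ι, hι, P, Q, r, hr, hP, hQ, hf⟩ := hf
  obtain ⟨ι', hι', P', Q', r', hr', hP', hQ', hg⟩ := hg
  refine ⟨ι ⊕ ι', inferInstance, Sum.elim P P', Sum.elim Q Q', Sum.elim r r', ?_, ?_, ?_, ?_⟩
  · rintro (i | i)
    exacts [hr i, hr' i]
  · rintro (i | i)
    exacts [hP i, hP' i]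
  · rintro (i | i)
    exacts [hQ i, hQ' i]
  · intro x
    change f x + g x = _
    rw [hf x, hg x, Fintype.sum_sum_type]
    rfl

theorem conical_list_sum {t : ℕ} {α : Type*} (l : List α) {f : α → Finset V → ℝ}
    (hf : ∀ a ∈ l, Conical t (f a)) : Conical t (fun x => (l.map fun a => f a x).sum) := by
  induction l with
  | nil => simpa using conical_const t le_rfl
  | cons a l ih =>
    simp only [List.map_cons, List.sum_cons]
    exact conical_add (hf a (by simp)) (ih fun b hb => hf b (by simp [hb]))

theorem conical_ite {t : ℕ} (v : V) {f g : Finset V → ℝ} (hf : Conical t f) (hg : Conical t g) :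
    Conical (t + 1) (fun x => if v ∈ x then f x else g x) := by
  obtain ⟨ι, hι, P, Q, r, hr, hP, hQ, hf⟩ := hf
  obtain ⟨ι', hι', P', Q', r', hr', hP', hQ', hg⟩ := hg
  refine ⟨ι ⊕ ι', inferInstance, Sum.elim (fun i => insert v (P i)) P',
    Sum.elim Q (fun i => insert v (Q' i)), Sum.elim r r', ?_, ?_, ?_, ?_⟩
  · rintro (i | i)
    exacts [hr i, hr' i]
  · rintro (i | i)
    · exact (Finset.card_insert_le _ _).trans (Nat.succ_le_succ (hP i))
    · exact (hP' i).trans (Nat.le_succ _)
  · rintro (i | i)
    · exact (hQ i).trans (Nat.le_succ _)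
    · exact (Finset.card_insert_le _ _).trans (Nat.succ_le_succ (hQ' i))
  · intro x
    change (if v ∈ x then f x else g x) = _
    rw [Fintype.sum_sum_type]
    by_cases hv : v ∈ x
    · rw [if_pos hv, hf x, ← add_zero (∑ i, if P i ⊆ x ∧ Disjoint (Q i) x then r i else 0)]
      refine congrArg₂ (· + ·) (Finset.sum_congr rfl fun i _ => ?_) ?_
      · change (if P i ⊆ x ∧ Disjoint (Q i) x then r i else 0) =
          if insert v (P i) ⊆ x ∧ Disjoint (Q i) x then r i else 0
        refine if_congr ?_ rfl rfl
        rw [Finset.insert_subset_iff]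
        simp [hv]
      · symm
        refine Finset.sum_eq_zero fun i _ => ?_
        change (if P' i ⊆ x ∧ Disjoint (insert v (Q' i)) x then r' i else 0) = 0
        rw [if_neg]
        rintro ⟨-, h⟩
        exact Finset.disjoint_left.1 h (Finset.mem_insert_self _ _) hv
    · rw [if_neg hv, hg x, ← zero_add (∑ i, if P' i ⊆ x ∧ Disjoint (Q' i) x then r' i else 0)]
      refine congrArg₂ (· + ·) ?_ (Finset.sum_congr rfl fun i _ => ?_)
      · symm
        refine Finset.sum_eq_zero fun i _ => ?_
        change (if insert v (P i) ⊆ x ∧ Disjoint (Q i) x then r i else 0) = 0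
        rw [if_neg]
        rintro ⟨h, -⟩
        exact hv (h (Finset.mem_insert_self _ _))
      · change (if P' i ⊆ x ∧ Disjoint (Q' i) x then r' i else 0) =
          if P' i ⊆ x ∧ Disjoint (insert v (Q' i)) x then r' i else 0
        refine if_congr ?_ rfl rfl
        rw [Finset.disjoint_insert_left]
        simp [hv]

end Conical

/-- PIECE A1. -/
theorem paths_conical (M : Machine) {V : Type} [DecidableEq V]
    (e : V → List Bool) (he : Function.Injective e) (A : Set (List Bool)) (hA : ∀ v, e v ∉ A)
    (o : Option Bool) (T : ℕ) (c : Cfg M) :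
    Conical T (fun x : Finset V => (M.paths (A ∪ e '' (x : Set V)) o T c : ℝ)) := by
  have hconst : ∀ (t : ℕ) (p : Prop) [Decidable p],
      Conical t (fun _ : Finset V => (((if p then 1 else 0 : ℕ)) : ℝ)) := by
    intro t p _
    exact conical_const t (Nat.cast_nonneg _)
  induction T generalizing c with
  | zero =>
    cases h : M.instr c <;> simp only [Machine.paths, h] <;> exact hconst _ _
  | succ T ih =>
    cases h : M.instr c with
    | accept => simp only [Machine.paths, h]; exact hconst _ _
    | reject => simp only [Machine.paths, h]; exact hconst _ _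
    | query yes no =>
      simp only [Machine.paths, h, Machine.answer]
      by_cases hs : ∃ v, e v = M.bits (c.stack 1)
      · obtain ⟨v, hv⟩ := hs
        have h1 := conical_ite v (ih ⟨yes, c.stack⟩) (ih ⟨no, c.stack⟩)
        refine (congrArg (Conical (T + 1)) (funext fun x => ?_)).mp h1
        have h2 : M.bits (c.stack 1) ∈ A ∪ e '' (x : Set V) ↔ v ∈ x := by
          rw [← hv]
          constructor
          · rintro (h | ⟨w, hw, hwv⟩)
            · exact absurd h (hA v)
            · rw [← he hwv]; exact hw
          · intro h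
            exact Or.inr ⟨v, h, rfl⟩
        by_cases hvx : v ∈ x
        · rw [if_pos hvx, if_pos (h2.2 hvx)]
        · rw [if_neg hvx, if_neg (fun h => hvx (h2.1 h))]
      · have h2 : ∀ x : Finset V, M.bits (c.stack 1) ∈ A ∪ e '' (x : Set V) ↔
            M.bits (c.stack 1) ∈ A := by
          intro x
          constructor
          · rintro (h | ⟨w, -, hw⟩)
            · exact h
            · exact absurd ⟨w, hw⟩ hs
          · exact Or.inl
        by_cases hsA : M.bits (c.stack 1) ∈ A
        · refine (congrArg (Conical (T + 1)) (funext fun x => ?_)).mp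
            (conical_mono (Nat.le_succ T) (ih ⟨yes, c.stack⟩))
          rw [if_pos ((h2 x).2 hsA)]
        · refine (congrArg (Conical (T + 1)) (funext fun x => ?_)).mp
            (conical_mono (Nat.le_succ T) (ih ⟨no, c.stack⟩))
          rw [if_neg (fun h => hsA ((h2 x).1 h))]
    | branch a l =>
      let F : Move M.k M.s M.q → Finset V → ℝ := fun b x =>
        (M.paths (A ∪ e '' (x : Set V)) o T (M.move c b) : ℝ)
      have hF : ∀ b, Conical T (F b) := fun b => ih (M.move c b)
      have h1 : Conical T (fun x : Finset V => (l.map fun b => F b x).sum) :=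
        conical_list_sum l fun b _ => hF b
      have h2 := conical_mono (Nat.le_succ T) (conical_add (ih (M.move c a)) h1)
      refine (congrArg (Conical (T + 1)) (funext fun x => ?_)).mp h2
      have h3 : M.paths (A ∪ e '' (x : Set V)) o (T + 1) c =
          M.paths (A ∪ e '' (x : Set V)) o T (M.move c a) +
          (l.map fun b => M.paths (A ∪ e '' (x : Set V)) o T (M.move c b)).sum := by
        simp only [Machine.paths, h]
      rw [h3, Nat.cast_add, Nat.cast_list_sum, List.map_map]
      rfl

/-- PIECE A2. -/
theorem paths_pos (M : Machine) (X : Set (List Bool)) (T : ℕ) (c : Cfg M) :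
    1 ≤ M.paths X (some true) T c + M.paths X (some false) T c + M.paths X none T c := by
  induction T generalizing c with
  | zero => cases h : M.instr c <;> simp [Machine.paths, h]
  | succ T ih =>
    cases h : M.instr c with
    | accept => simp [Machine.paths, h]
    | reject => simp [Machine.paths, h]
    | query yes no => simp only [Machine.paths, h]; exact ih _
    | branch a l =>
      simp only [Machine.paths, h]
      have := ih (M.move c a)
      omega

theorem exists_bound (M : Machine) : ∃ b : ℕ, ∀ (c : Cfg M) a l, M.instr c = .branch a l →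
    1 + l.length ≤ 2 ^ b := by
  classical
  let len : Act M.k M.s M.q → ℕ := fun x => match x with
    | .branch _ l => l.length
    | _ => 0
  let B : ℕ := ∑ x : Fin (M.q + 1) × (Fin (M.k + 2) → Option (Sym M.s)), len (M.act x.1 x.2)
  refine ⟨B + 1, fun c a l h => ?_⟩
  have h1 : len (M.act c.state fun i => (c.stack i).head?) ≤ B :=
    Finset.single_le_sum (f := fun x : Fin (M.q + 1) × (Fin (M.k + 2) → Option (Sym M.s)) =>
      len (M.act x.1 x.2)) (fun _ _ => Nat.zero_le _)
      (Finset.mem_univ (c.state, fun i => (c.stack i).head?))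
  have h2 : M.act c.state (fun i => (c.stack i).head?) = .branch a l := h
  rw [h2] at h1
  have h3 : l.length ≤ B := h1
  have h4 : B + 1 < 2 ^ (B + 1) := Nat.lt_two_pow_self
  omega

/-- PIECE A3. -/
theorem paths_le (M : Machine) : ∃ b : ℕ, ∀ (X : Set (List Bool)) (T : ℕ) (c : Cfg M),
    M.paths X (some true) T c + M.paths X (some false) T c + M.paths X none T c ≤ 2 ^ (b * T) := by
  obtain ⟨b, hb⟩ := exists_bound M
  refine ⟨b, fun X T => ?_⟩
  induction T with
  | zero => intro c; cases h : M.instr c <;> simp [Machine.paths, h]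
  | succ T ih =>
    intro c
    have hmono : 2 ^ (b * T) ≤ 2 ^ (b * (T + 1)) :=
      Nat.pow_le_pow_right (by norm_num) (Nat.mul_le_mul_left b (Nat.le_succ T))
    cases h : M.instr c with
    | accept => simp only [Machine.paths, h]; simpa using Nat.one_le_two_pow
    | reject => simp only [Machine.paths, h]; simpa using Nat.one_le_two_pow
    | query yes no => simp only [Machine.paths, h]; exact (ih _).trans hmono
    | branch a l =>
      simp only [Machine.paths, h]
      have h1 : ∀ l' : List (Move M.k M.s M.q),
          (l'.map fun x => M.paths X (some true) T (M.move c x)).sum +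
          (l'.map fun x => M.paths X (some false) T (M.move c x)).sum +
          (l'.map fun x => M.paths X none T (M.move c x)).sum ≤ l'.length * 2 ^ (b * T) := by
        intro l'
        induction l' with
        | nil => simp
        | cons x l' ih' =>
          simp only [List.map_cons, List.sum_cons, List.length_cons]
          have := ih (M.move c x)
          linarith
      have h2 := h1 l
      have h3 := ih (M.move c a)
      have h4 : (1 + l.length) * 2 ^ (b * T) ≤ 2 ^ b * 2 ^ (b * T) :=
        Nat.mul_le_mul_right _ (hb c a l h)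
      have h5 : 2 ^ (b * (T + 1)) = 2 ^ b * 2 ^ (b * T) := by
        rw [← pow_add]; congr 1; ring
      rw [h5]
      linarith

/-- PIECE A4. -/
theorem paths_support (M : Machine) (o : Option Bool) (T : ℕ) (c : Cfg M) :
    ∃ S : Finset (List Bool), ∀ X Y : Set (List Bool), (∀ s ∈ S, s ∈ X ↔ s ∈ Y) →
      M.paths X o T c = M.paths Y o T c := by
  classical
  induction T generalizing c with
  | zero => exact ⟨∅, fun X Y _ => by cases h : M.instr c <;> simp only [Machine.paths, h]⟩
  | succ T ih =>
    choose S hS using ih
    cases h : M.instr c with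
    | accept => exact ⟨∅, fun X Y _ => by simp only [Machine.paths, h]⟩
    | reject => exact ⟨∅, fun X Y _ => by simp only [Machine.paths, h]⟩
    | query yes no =>
      refine ⟨{M.bits (c.stack 1)} ∪ (S ⟨yes, c.stack⟩ ∪ S ⟨no, c.stack⟩), fun X Y hXY => ?_⟩
      simp only [Machine.paths, h, Machine.answer]
      have h1 := hXY (M.bits (c.stack 1)) (by simp)
      by_cases hq : M.bits (c.stack 1) ∈ X
      · rw [if_pos hq, if_pos (h1.1 hq)]
        exact hS _ X Y fun s hs => hXY s (by simp [hs])
      · rw [if_neg hq, if_neg (fun h' => hq (h1.2 h'))]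
        exact hS _ X Y fun s hs => hXY s (by simp [hs])
    | branch a l =>
      refine ⟨S (M.move c a) ∪ l.toFinset.biUnion (fun b => S (M.move c b)), fun X Y hXY => ?_⟩
      simp only [Machine.paths, h]
      rw [hS _ X Y fun s hs => hXY s (by simp [hs])]
      congr 2
      refine List.map_congr_left fun b hb => ?_
      refine hS _ X Y fun s hs => hXY s ?_
      rw [Finset.mem_union, Finset.mem_biUnion]
      exact Or.inr ⟨b, List.mem_toFinset.2 hb, hs⟩

end Pool.Agent.Helper17.BPath
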